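import Pool.Agent.Q192.DM.Comp

namespace Pool.Agent.Q192.DM
open Matrix Topology
open scoped ContDiff

variable {n : ℕ}

/-- the chart map -/
noncomputable def Phi (G : SimpleGraph (Fin n)) (M : Mat n) : Mat n := by
  classical
  exact fun i j => if i = j then M i j - 1 else if j < i then M i j - M j i
    else if G.Adj i j then M i j else (Matrix.of M)⁻¹ i j

theorem contDiff_det : ContDiff ℝ ω fun M : Mat n => (Matrix.of M).det := by
  simp only [Matrix.det_apply, Matrix.of_apply]
  refine ContDiff.sum fun σ _ => ?_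
  refine ContDiff.const_smul _ ?_
  refine contDiff_prod fun i _ => ?_
  fun_prop

theorem contDiff_adj (i j : Fin n) : ContDiff ℝ ω fun M : Mat n => (Matrix.of M).adjugate i j := by
  have h1 : (fun M : Mat n => (Matrix.of M).adjugate i j) =
      (fun M : Mat n => (Matrix.of M).det) ∘
        (fun M : Mat n => fun a b => if a = j then (Pi.single i 1 : Fin n → ℝ) b else M a b) := by
    funext M
    rw [Matrix.adjugate_apply]
    simp only [Function.comp]
    congr 1
    ext a b
    simp only [Matrix.of_apply, Matrix.updateRow_apply]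
  rw [h1]
  refine contDiff_det.comp ?_
  rw [contDiff_pi]
  intro a
  rw [contDiff_pi]
  intro b
  by_cases h : a = j
  · simp only [h, if_true]; exact contDiff_const
  · simp only [h, if_false]; fun_prop

theorem inv_entry (M : Mat n) (i j : Fin n) :
    (Matrix.of M)⁻¹ i j = (Matrix.of M).det⁻¹ * (Matrix.of M).adjugate i j := by
  rw [Matrix.inv_def]
  simp [Ring.inverse_eq_inv']

theorem contDiffAt_inv (S : Mat n) (hS : (Matrix.of S).det ≠ 0) (i j : Fin n) :
    ContDiffAt ℝ ω (fun M : Mat n => (Matrix.of M)⁻¹ i j) S := by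
  have h1 : (fun M : Mat n => (Matrix.of M)⁻¹ i j) =
      fun M : Mat n => (Matrix.of M).det⁻¹ * (Matrix.of M).adjugate i j := by
    funext M; exact inv_entry M i j
  rw [h1]
  exact (contDiff_det.contDiffAt.inv hS).mul (contDiff_adj i j).contDiffAt

theorem contDiffAt_Phi (G : SimpleGraph (Fin n)) (S : Mat n) (hS : (Matrix.of S).det ≠ 0) :
    ContDiffAt ℝ ω (Phi G) S := by
  classical
  rw [contDiffAt_pi]
  intro i
  rw [contDiffAt_pi]
  intro j
  unfold Phi
  by_cases h1 : i = j
  · simp only [h1, if_true]; fun_prop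
  · by_cases h2 : j < i
    · simp only [h1, h2, if_true, if_false]; fun_prop
    · by_cases h3 : G.Adj i j
      · simp only [h1, h2, h3, if_true, if_false]; fun_prop
      · simp only [h1, h2, h3, if_false]
        exact contDiffAt_inv S hS i j

theorem inv_line (S X : Mat n) (hS : (Matrix.of S).det ≠ 0) (i j : Fin n) :
    HasDerivAt (fun t : ℝ => (Matrix.of (S + t • X))⁻¹ i j)
      (-((Matrix.of S)⁻¹ * Matrix.of X * (Matrix.of S)⁻¹) i j) 0 := by
  set K := (Matrix.of S)⁻¹ with hK
  set γ : ℝ → Mat n := fun t => S + t • X with hγ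
  have hγc : ContDiff ℝ ω γ := by rw [hγ]; fun_prop
  have hγ0 : γ 0 = S := by simp [hγ]
  have hdet : ∀ᶠ t in 𝓝 (0:ℝ), (Matrix.of (γ t)).det ≠ 0 := by
    have h1 : ContinuousAt (fun t => (Matrix.of (γ t)).det) 0 :=
      (contDiff_det.continuous.comp hγc.continuous).continuousAt
    apply h1.eventually_ne
    rw [hγ0]; exact hS
  have hg : ∀ a b, DifferentiableAt ℝ (fun t => (Matrix.of (γ t))⁻¹ a b) 0 := by
    intro a b
    have h1 : ContDiffAt ℝ ω (fun M : Mat n => (Matrix.of M)⁻¹ a b) (γ 0) := by
      rw [hγ0]; exact contDiffAt_inv S hS a b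
    exact ((h1.comp 0 hγc.contDiffAt).differentiableAt (by simp))
  have hprod : DifferentiableAt ℝ
      (fun t => ((Matrix.of (γ t))⁻¹ * Matrix.of X * K) i j) 0 := by
    simp only [Matrix.mul_apply]
    refine DifferentiableAt.fun_sum fun a _ => ?_
    refine DifferentiableAt.mul_const ?_ _
    refine DifferentiableAt.fun_sum fun b _ => ?_
    exact (hg i b).mul_const _
  have hev : (fun t : ℝ => (Matrix.of (S + t • X))⁻¹ i j) =ᶠ[𝓝 0]
      fun t => K i j - t * ((Matrix.of (γ t))⁻¹ * Matrix.of X * K) i j := by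
    filter_upwards [hdet] with t ht
    have h1 : Matrix.of (γ t) = Matrix.of S + t • Matrix.of X := rfl
    have h2 : (Matrix.of (γ t))⁻¹ * Matrix.of (γ t) = 1 :=
      Matrix.nonsing_inv_mul _ (isUnit_iff_ne_zero.2 ht)
    have h3 : Matrix.of S * K = 1 := Matrix.mul_nonsing_inv _ (isUnit_iff_ne_zero.2 hS)
    have h4 : (Matrix.of (γ t))⁻¹ = K - t • ((Matrix.of (γ t))⁻¹ * Matrix.of X * K) := by
      have h5 : (Matrix.of (γ t))⁻¹ * Matrix.of (γ t) * K = K := by rw [h2, Matrix.one_mul]
      have h6 : (Matrix.of (γ t))⁻¹ * Matrix.of (γ t) * K =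
          (Matrix.of (γ t))⁻¹ + t • ((Matrix.of (γ t))⁻¹ * Matrix.of X * K) := by
        conv_lhs => rw [Matrix.mul_assoc]; rhs; rw [h1]
        rw [Matrix.add_mul, h3, Matrix.mul_add, Matrix.mul_one, Matrix.smul_mul, Matrix.mul_smul,
          Matrix.mul_assoc]
      rw [h6] at h5
      exact eq_sub_iff_add_eq.2 h5
    have h7 := congrFun (congrFun h4 i) j
    simpa using h7
  refine HasDerivAt.congr_of_eventuallyEq ?_ hev
  have h1 := (hasDerivAt_id (0:ℝ)).fun_mul hprod.hasDerivAt
  have h2 := h1.const_sub (K i j)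
  refine h2.congr_deriv ?_
  simp [hγ0, hK]

theorem fderiv_Phi (G : SimpleGraph (Fin n)) (S X : Mat n) (hS : (Matrix.of S).det ≠ 0)
    (i j : Fin n) [DecidableRel G.Adj] :
    fderiv ℝ (Phi G) S X i j = if i = j then X i j else if j < i then X i j - X j i
      else if G.Adj i j then X i j
      else -((Matrix.of S)⁻¹ * Matrix.of X * (Matrix.of S)⁻¹) i j := by
  have hd : DifferentiableAt ℝ (Phi G) S := (contDiffAt_Phi G S hS).differentiableAt (by simp)
  have hl : HasDerivAt (fun t : ℝ => S + t • X) X 0 := by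
    simpa using ((hasDerivAt_id (0:ℝ)).smul_const X).const_add S
  have h0 : HasFDerivAt (Phi G) (fderiv ℝ (Phi G) S) (S + (0:ℝ) • X) := by
    simpa using hd.hasFDerivAt
  have h1 : HasDerivAt (Phi G ∘ fun t : ℝ => S + t • X) (fderiv ℝ (Phi G) S X) 0 :=
    HasFDerivAt.comp_hasDerivAt (0:ℝ) (f := fun t : ℝ => S + t • X) h0 hl
  have h2 : HasDerivAt (fun t : ℝ => Phi G (S + t • X) i j) (fderiv ℝ (Phi G) S X i j) 0 := by
    have h3 := hasDerivAt_pi.1 h1 i
    exact hasDerivAt_pi.1 h3 j
  refine h2.unique ?_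
  by_cases c1 : i = j
  · simp only [Phi, c1, if_true]
    simpa using ((hasDerivAt_id (0:ℝ)).mul_const (X j j)).const_add (S j j) |>.sub_const 1
  · by_cases c2 : j < i
    · simp only [Phi, c1, c2, if_true, if_false]
      have e1 : HasDerivAt (fun t : ℝ => S i j + t * X i j) (X i j) 0 := by
        simpa using ((hasDerivAt_id (0:ℝ)).mul_const (X i j)).const_add (S i j)
      have e2 : HasDerivAt (fun t : ℝ => S j i + t * X j i) (X j i) 0 := by
        simpa using ((hasDerivAt_id (0:ℝ)).mul_const (X j i)).const_add (S j i)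
      exact e1.fun_sub e2
    · by_cases c3 : G.Adj i j
      · simp only [Phi, c1, c2, c3, if_true, if_false]
        simpa using ((hasDerivAt_id (0:ℝ)).mul_const (X i j)).const_add (S i j)
      · simp only [Phi, c1, c2, c3, if_false]
        exact inv_line S X hS i j

theorem fderiv_Phi_inj (G : SimpleGraph (Fin n)) (S : Mat n) (hS : (Matrix.of S).PosDef) :
    Function.Injective (fderiv ℝ (Phi G) S) := by
  classical
  rw [injective_iff_map_eq_zero]
  intro X hX
  have hdet := hS.det_pos.ne'
  have key : ∀ i j, (if i = j then X i j else if j < i then X i j - X j i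
      else if G.Adj i j then X i j
      else -((Matrix.of S)⁻¹ * Matrix.of X * (Matrix.of S)⁻¹) i j) = 0 := by
    intro i j
    rw [← fderiv_Phi G S X hdet i j, hX]
    rfl
  have hdiag : ∀ i, X i i = 0 := fun i => by simpa using key i i
  have hlow : ∀ i j, j < i → X i j = X j i := by
    intro i j h
    have := key i j
    rw [if_neg h.ne', if_pos h] at this
    linarith
  have hsym : ∀ i j, X i j = X j i := by
    intro i j
    rcases lt_trichotomy i j with h | h | h
    · exact (hlow j i h).symm
    · rw [h]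
    · exact hlow i j h
  have hG : ∀ i j, G.Adj i j → X i j = 0 := by
    have h1 : ∀ i j, i < j → G.Adj i j → X i j = 0 := by
      intro i j h hij
      have := key i j
      rwa [if_neg h.ne, if_neg h.not_gt, if_pos hij] at this
    intro i j hij
    rcases lt_trichotomy i j with h | h | h
    · exact h1 i j h hij
    · rw [h]; exact hdiag j
    · rw [hsym]; exact h1 j i h hij.symm
  set K := (Matrix.of S)⁻¹ with hK
  set Xm := Matrix.of X with hXm
  have hKs : Kᵀ = K := by
    have := hS.inv.isHermitian.eq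
    rwa [Matrix.conjTranspose_eq_transpose_of_trivial] at this
  have hXs : Xmᵀ = Xm := by
    ext i j
    exact hsym j i
  have hYs : ∀ i j, (K * Xm * K) i j = (K * Xm * K) j i := by
    intro i j
    have h1 : (K * Xm * K)ᵀ = K * Xm * K := by
      rw [Matrix.transpose_mul, Matrix.transpose_mul, hKs, hXs, Matrix.mul_assoc]
    exact (congrFun (congrFun h1 j) i)
  have hY : ∀ i j, i ≠ j → ¬ G.Adj i j → (K * Xm * K) i j = 0 := by
    have h1 : ∀ i j, i < j → ¬ G.Adj i j → (K * Xm * K) i j = 0 := by
      intro i j h hij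
      have := key i j
      rw [if_neg h.ne, if_neg h.not_gt, if_neg hij] at this
      linarith
    intro i j hne hij
    rcases lt_trichotomy i j with h | h | h
    · exact h1 i j h hij
    · exact absurd h hne
    · rw [hYs]; exact h1 j i h (fun h' => hij h'.symm)
  have htr : (Xm * K * Xm * K).trace = 0 := by
    have e1 : Xm * K * Xm * K = Xm * (K * Xm * K) := by simp only [Matrix.mul_assoc]
    rw [e1, Matrix.trace]
    refine Finset.sum_eq_zero fun i _ => ?_
    rw [Matrix.diag_apply, Matrix.mul_apply]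
    refine Finset.sum_eq_zero fun j _ => ?_
    by_cases h : i = j
    · rw [h]
      show X j j * _ = 0
      rw [hdiag, zero_mul]
    · by_cases hij : G.Adj i j
      · show X i j * _ = 0
        rw [hG i j hij, zero_mul]
      · rw [hYs, hY i j h hij, mul_zero]
  have hX0 := eq_zero_of_trace hXs hS.inv hS.inv htr
  funext i j
  exact congrFun (congrFun hX0 i) j

end Pool.Agent.Q192.DM
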