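import Pool.Agent.Q192.DM.An

namespace Pool.Agent.Q192.DM
open Matrix Topology
open scoped ContDiff

variable {n : ℕ}

/-- free coordinates -/
abbrev Idx (G H : SimpleGraph (Fin n)) : Type :=
  {p : Fin n × Fin n // p.1 < p.2 ∧ G.Adj p.1 p.2 ∧ H.Adj p.1 p.2}

noncomputable instance (G H : SimpleGraph (Fin n)) : Fintype (Idx G H) := Fintype.ofFinite _

/-- the coordinate projection -/
def prj (G H : SimpleGraph (Fin n)) (M : Mat n) : Idx G H → ℝ := fun p => M p.1.1 p.1.2

/-- zero extension -/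
noncomputable def ext0 (G H : SimpleGraph (Fin n)) (b : Idx G H → ℝ) : Mat n := by
  classical
  exact fun i j => if h : i < j ∧ G.Adj i j ∧ H.Adj i j then b ⟨(i, j), h⟩ else 0

theorem mem_corr_sym {G H : SimpleGraph (Fin n)} {S : Mat n} (hS : S ∈ corrModel G H) (i j : Fin n) :
    S i j = S j i := by
  have := hS.1.1.isHermitian.apply j i
  simpa using this

theorem inv_sym {S : Mat n} (hS : (Matrix.of S).PosDef) (i j : Fin n) :
    (Matrix.of S)⁻¹ i j = (Matrix.of S)⁻¹ j i := by
  have := hS.inv.isHermitian.apply j i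
  simpa using this

/-- vanishing of the constrained components -/
def Zr (G H : SimpleGraph (Fin n)) (M : Mat n) : Prop :=
  ∀ i j, ¬ (i < j ∧ G.Adj i j ∧ H.Adj i j) → Phi G M i j = 0

theorem mem_zr {G H : SimpleGraph (Fin n)} {M : Mat n} (hM : M ∈ corrModel G H) : Zr G H M := by
  classical
  intro i j hij
  unfold Phi
  by_cases c1 : i = j
  · rw [if_pos c1, c1, hM.2 j]; ring
  · rw [if_neg c1]
    by_cases c2 : j < i
    · rw [if_pos c2, mem_corr_sym hM i j]; ring
    · rw [if_neg c2]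
      have hlt : i < j := lt_of_le_of_ne (not_lt.1 c2) c1
      by_cases c3 : G.Adj i j
      · rw [if_pos c3]
        exact hM.1.2.2 i j c1 (fun h => hij ⟨hlt, c3, h⟩)
      · rw [if_neg c3]
        exact hM.1.2.1 i j c1 c3

theorem zr_mem {G H : SimpleGraph (Fin n)} (hGH : ∀ i j, i ≠ j → G.Adj i j ∨ H.Adj i j)
    {S : Mat n} (hS : (Matrix.of S).PosDef) :
    ∀ᶠ M : Mat n in 𝓝 S, (Zr G H M → M ∈ corrModel G H) := by
  classical
  filter_upwards [pd_open S hS] with M hM hz
  have hsym : ∀ i j, M i j = M j i := by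
    have h1 : ∀ i j, j < i → M i j = M j i := by
      intro i j h
      have := hz i j (fun h' => absurd h'.1 h.not_gt)
      unfold Phi at this
      rw [if_neg h.ne', if_pos h] at this
      linarith
    intro i j
    rcases lt_trichotomy i j with h | h | h
    · exact (h1 j i h).symm
    · rw [h]
    · exact h1 i j h
  have hpd := hM hsym
  have hdiag : ∀ i, M i i = 1 := by
    intro i
    have := hz i i (fun h' => absurd h'.1 (lt_irrefl _))
    unfold Phi at this
    rw [if_pos rfl] at this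
    linarith
  refine ⟨⟨hpd, ?_, ?_⟩, hdiag⟩
  · have h1 : ∀ i j, i < j → ¬ G.Adj i j → (Matrix.of M)⁻¹ i j = 0 := by
      intro i j h hg
      have := hz i j (fun h' => hg h'.2.1)
      unfold Phi at this
      rwa [if_neg h.ne, if_neg h.not_gt, if_neg hg] at this
    intro i j hne hg
    rcases lt_trichotomy i j with h | h | h
    · exact h1 i j h hg
    · exact absurd h hne
    · rw [inv_sym hpd]; exact h1 j i h (fun h' => hg h'.symm)
  · have h1 : ∀ i j, i < j → ¬ H.Adj i j → M i j = 0 := by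
      intro i j h hg
      have := hz i j (fun h' => hg h'.2.2)
      unfold Phi at this
      have hG : G.Adj i j := (hGH i j h.ne).resolve_right hg
      rwa [if_neg h.ne, if_neg h.not_gt, if_pos hG] at this
    intro i j hne hg
    rcases lt_trichotomy i j with h | h | h
    · exact h1 i j h hg
    · exact absurd h hne
    · rw [hsym]; exact h1 j i h (fun h' => hg h'.symm)

theorem phi_free {G H : SimpleGraph (Fin n)} (M : Mat n) (i j : Fin n)
    (h : i < j ∧ G.Adj i j ∧ H.Adj i j) : Phi G M i j = M i j := by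
  classical
  unfold Phi
  rw [if_neg h.1.ne, if_neg h.1.not_gt, if_pos h.2.1]

theorem phi_eq_ext {G H : SimpleGraph (Fin n)} {M : Mat n} (hM : Zr G H M) :
    Phi G M = ext0 G H (prj G H M) := by
  classical
  funext i j
  unfold ext0 prj
  by_cases h : i < j ∧ G.Adj i j ∧ H.Adj i j
  · rw [dif_pos h, phi_free M i j h]
  · rw [dif_neg h, hM i j h]

theorem unique {G H : SimpleGraph (Fin n)} {S T : Mat n} (hS : S ∈ corrModel G H)
    (hT : T ∈ corrModel G H) (h : prj G H S = prj G H T) : S = T := by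
  classical
  set X : Mat n := S - T with hX
  have hG : ∀ i j, i = j ∨ G.Adj i j → X i j = 0 := by
    have h1 : ∀ i j, i < j → G.Adj i j → S i j = T i j := by
      intro i j hlt hg
      by_cases hh : H.Adj i j
      · exact congrFun h ⟨(i, j), hlt, hg, hh⟩
      · rw [hS.1.2.2 i j hlt.ne hh, hT.1.2.2 i j hlt.ne hh]
    intro i j hij
    show S i j - T i j = 0
    rcases hij with rfl | hg
    · rw [hS.2, hT.2]; ring
    · rcases lt_trichotomy i j with h' | h' | h'
      · rw [h1 i j h' hg]; ring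
      · rw [h', hS.2, hT.2]; ring
      · rw [mem_corr_sym hS i j, mem_corr_sym hT i j, h1 j i h' hg.symm]; ring
  set K := (Matrix.of S)⁻¹ with hK
  set L := (Matrix.of T)⁻¹ with hL
  have hKL : ∀ i j, i ≠ j → ¬ G.Adj i j → (L - K) i j = 0 := by
    intro i j hne hg
    have a1 : K i j = 0 := hS.1.2.1 i j hne hg
    have a2 : L i j = 0 := hT.1.2.1 i j hne hg
    rw [Matrix.sub_apply, a1, a2]; ring
  have hXs : (Matrix.of X)ᵀ = Matrix.of X := by
    ext i j
    show X j i = X i j
    show S j i - T j i = S i j - T i j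
    rw [mem_corr_sym hS i j, mem_corr_sym hT i j]
  have hid : L - K = L * Matrix.of X * K := by
    have e1 : Matrix.of X = Matrix.of S - Matrix.of T := rfl
    have e2 : Matrix.of S * K = 1 :=
      Matrix.mul_nonsing_inv _ (isUnit_iff_ne_zero.2 hS.1.1.det_pos.ne')
    have e3 : L * Matrix.of T = 1 :=
      Matrix.nonsing_inv_mul _ (isUnit_iff_ne_zero.2 hT.1.1.det_pos.ne')
    rw [e1, Matrix.mul_sub, Matrix.sub_mul, Matrix.mul_assoc, e2, e3, Matrix.mul_one,
      Matrix.one_mul]
  have hKLs : ∀ i j, (L - K) i j = (L - K) j i := by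
    intro i j
    have a1 : K i j = K j i := inv_sym hS.1.1 i j
    have a2 : L i j = L j i := inv_sym hT.1.1 i j
    rw [Matrix.sub_apply, Matrix.sub_apply, a1, a2]
  have htr : (Matrix.of X * L * Matrix.of X * K).trace = 0 := by
    have e1 : Matrix.of X * L * Matrix.of X * K = Matrix.of X * (L - K) := by
      rw [hid]; simp only [Matrix.mul_assoc]
    rw [e1, Matrix.trace]
    refine Finset.sum_eq_zero fun i _ => ?_
    rw [Matrix.diag_apply, Matrix.mul_apply]
    refine Finset.sum_eq_zero fun j _ => ?_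
    by_cases hij : i = j ∨ G.Adj i j
    · show X i j * _ = 0
      rw [hG i j hij, zero_mul]
    · push Not at hij
      rw [hKLs, hKL i j hij.1 hij.2, mul_zero]
  have hX0 := eq_zero_of_trace hXs hT.1.1.inv hS.1.1.inv htr
  have hX1 : X = 0 := by
    funext i j
    exact congrFun (congrFun hX0 i) j
  exact sub_eq_zero.1 hX1

/-- admissible parameters -/
def Om (G H : SimpleGraph (Fin n)) : Set (Idx G H → ℝ) :=
  {b | ∃ T : Mat n, (Matrix.of T).PosDef ∧ (∀ i, T i i = 1) ∧
    (∀ i j, i ≠ j → ¬ H.Adj i j → T i j = 0) ∧ prj G H T = b}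

theorem exists_of_Om {G H : SimpleGraph (Fin n)} (hGH : ∀ i j, i ≠ j → G.Adj i j ∨ H.Adj i j)
    {b : Idx G H → ℝ} (hb : b ∈ Om G H) : ∃ S ∈ corrModel G H, prj G H S = b := by
  obtain ⟨T, hT, hd, hH, hp⟩ := hb
  obtain ⟨S, hS, hSd, hSG, hSi⟩ := completion G T hT hd
  refine ⟨S, ⟨⟨hS, hSi, ?_⟩, hSd⟩, ?_⟩
  · intro i j hne hh
    rw [hSG i j ((hGH i j hne).resolve_right hh), hH i j hne hh]
  · rw [← hp]
    funext p
    exact hSG _ _ p.2.2.1

/-- the inverse chart -/
noncomputable def Fi (G H : SimpleGraph (Fin n)) (b : Idx G H → ℝ) : Mat n := by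
  classical
  exact if h : ∃ S ∈ corrModel G H, prj G H S = b then h.choose else 0

theorem Fi_spec {G H : SimpleGraph (Fin n)} {b : Idx G H → ℝ}
    (h : ∃ S ∈ corrModel G H, prj G H S = b) :
    Fi G H b ∈ corrModel G H ∧ prj G H (Fi G H b) = b := by
  classical
  have h1 : Fi G H b = h.choose := by
    unfold Fi
    rw [dif_pos h]
  rw [h1]
  exact h.choose_spec

theorem prj_mem {G H : SimpleGraph (Fin n)} {S : Mat n} (hS : S ∈ corrModel G H) :
    prj G H S ∈ Om G H := ⟨S, hS.1.1, hS.2, hS.1.2.2, rfl⟩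

theorem Fi_prj {G H : SimpleGraph (Fin n)} {S : Mat n} (hS : S ∈ corrModel G H) :
    Fi G H (prj G H S) = S := by
  have h := Fi_spec (G := G) (H := H) (b := prj G H S) ⟨S, hS, rfl⟩
  exact unique h.1 hS h.2

theorem Om_convex (G H : SimpleGraph (Fin n)) : Convex ℝ (Om G H) := by
  rintro _ ⟨S, hS, hSd, hSH, rfl⟩ _ ⟨T, hT, hTd, hTH, rfl⟩ a b ha hb hab
  refine ⟨a • S + b • T, ?_, ?_, ?_, ?_⟩
  · have h1 : Matrix.of (a • S + b • T) = a • Matrix.of S + b • Matrix.of T := rfl
    rw [h1]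
    rcases ha.eq_or_lt with h0 | h0
    · have : b = 1 := by linarith
      rw [← h0, this]; simpa using hT
    · rcases hb.eq_or_lt with h0' | h0'
      · have : a = 1 := by linarith
        rw [← h0', this]; simpa using hS
      · exact (hS.smul h0).add (hT.smul h0')
  · intro i
    show a * S i i + b * T i i = 1
    rw [hSd, hTd]; linarith
  · intro i j hne hh
    show a * S i j + b * T i j = 0
    rw [hSH i j hne hh, hTH i j hne hh]; ring
  · rfl

theorem ext0_contDiff (G H : SimpleGraph (Fin n)) : ContDiff ℝ ω (ext0 G H) := by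
  classical
  rw [contDiff_pi]
  intro i
  rw [contDiff_pi]
  intro j
  unfold ext0
  by_cases h : i < j ∧ G.Adj i j ∧ H.Adj i j
  · simp only [dif_pos h]; fun_prop
  · simp only [dif_neg h]; exact contDiff_const

theorem ext0_zr {G H : SimpleGraph (Fin n)} {b : Idx G H → ℝ} {M : Mat n}
    (h : Phi G M = ext0 G H b) : Zr G H M ∧ prj G H M = b := by
  classical
  constructor
  · intro i j hij
    rw [h]
    unfold ext0
    rw [dif_neg hij]
  · funext p
    have h1 := congrFun (congrFun h p.1.1) p.1.2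
    rw [phi_free M _ _ p.2] at h1
    unfold prj
    rw [h1]
    unfold ext0
    rw [dif_pos p.2]

/-- the inverse chart is locally given by an analytic map -/
theorem Fi_local {G H : SimpleGraph (Fin n)} (hGH : ∀ i j, i ≠ j → G.Adj i j ∨ H.Adj i j)
    {S : Mat n} (hS : S ∈ corrModel G H) :
    ∃ g : (Idx G H → ℝ) → Mat n, ContDiffAt ℝ ω g (prj G H S) ∧
      ∀ᶠ b in 𝓝 (prj G H S), b ∈ Om G H ∧ Fi G H b = g b := by
  have hpd := hS.1.1
  have hc : ContDiffAt ℝ ω (Phi G) S := contDiffAt_Phi G S hpd.det_pos.ne'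
  set L := fderiv ℝ (Phi G) S with hL
  have hinj : Function.Injective L := fderiv_Phi_inj G S hpd
  have hinj' : Function.Injective (L : Mat n →ₗ[ℝ] Mat n) := hinj
  let e : Mat n ≃L[ℝ] Mat n :=
    (LinearEquiv.ofInjectiveEndo (L : Mat n →ₗ[ℝ] Mat n) hinj').toContinuousLinearEquiv
  have he : (e : Mat n →L[ℝ] Mat n) = L := by
    ext x
    rfl
  have hd : HasFDerivAt (Phi G) (e : Mat n →L[ℝ] Mat n) S := by
    rw [he]
    exact (hc.differentiableAt (by simp)).hasFDerivAt
  have hne : (ω : WithTop ℕ∞) ≠ 0 := by simp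
  set ψ := hc.localInverse hd hne with hψ
  have hψc : ContDiffAt ℝ ω ψ (Phi G S) := hc.to_localInverse hd hne
  have hψS : ψ (Phi G S) = S := hc.localInverse_apply_image hd hne
  have hst := hc.hasStrictFDerivAt' hd hne
  have hright : ∀ᶠ y in 𝓝 (Phi G S), Phi G (ψ y) = y := hst.eventually_right_inverse
  have hPS : Phi G S = ext0 G H (prj G H S) := phi_eq_ext (mem_zr hS)
  have hg : ContDiffAt ℝ ω (ψ ∘ ext0 G H) (prj G H S) := by
    refine ContDiffAt.comp _ ?_ (ext0_contDiff G H).contDiffAt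
    rw [← hPS]; exact hψc
  refine ⟨ψ ∘ ext0 G H, hg, ?_⟩
  have hext : Filter.Tendsto (ext0 G H) (𝓝 (prj G H S)) (𝓝 (Phi G S)) := by
    rw [hPS]
    exact (ext0_contDiff G H).continuous.tendsto _
  have hψt : Filter.Tendsto ψ (𝓝 (Phi G S)) (𝓝 S) := by
    have := hψc.continuousAt.tendsto
    rwa [hψS] at this
  have h1 := (hψt.comp hext).eventually (zr_mem hGH hpd)
  have h2 := hext.eventually hright
  filter_upwards [h1, h2] with b hb1 hb2
  obtain ⟨hz, hp⟩ := ext0_zr hb2
  have hm : ψ (ext0 G H b) ∈ corrModel G H := hb1 hz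
  refine ⟨?_, ?_⟩
  · rw [← hp]; exact prj_mem hm
  · have h3 := Fi_prj hm
    rw [hp] at h3
    exact h3

theorem Om_open {G H : SimpleGraph (Fin n)} (hGH : ∀ i j, i ≠ j → G.Adj i j ∨ H.Adj i j) :
    IsOpen (Om G H) := by
  rw [isOpen_iff_mem_nhds]
  intro b hb
  obtain ⟨S, hS, rfl⟩ := exists_of_Om hGH hb
  obtain ⟨g, _, hg⟩ := Fi_local hGH hS
  filter_upwards [hg] with c hc using hc.1

theorem Fi_analytic {G H : SimpleGraph (Fin n)} (hGH : ∀ i j, i ≠ j → G.Adj i j ∨ H.Adj i j) :
    AnalyticOnNhd ℝ (Fi G H) (Om G H) := by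
  intro b hb
  obtain ⟨S, hS, rfl⟩ := exists_of_Om hGH hb
  obtain ⟨g, hg, hev⟩ := Fi_local hGH hS
  have h1 : AnalyticAt ℝ g (prj G H S) := hg.analyticAt
  refine h1.congr ?_
  filter_upwards [hev] with c hc using hc.2.symm

/-- identity principle on the big model -/
theorem ident {G H : SimpleGraph (Fin n)} (hGH : ∀ i j, i ≠ j → G.Adj i j ∨ H.Adj i j)
    {p : Mat n → ℝ} (hp : ContDiff ℝ ω p) {b0 : Idx G H → ℝ} (hb0 : b0 ∈ Om G H)
    (h : ∀ᶠ b in 𝓝 b0, p (Fi G H b) = 0) : ∀ S ∈ corrModel G H, p S = 0 := by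
  have h1 : AnalyticOnNhd ℝ (p ∘ Fi G H) (Om G H) := by
    intro b hb
    have h2 : AnalyticAt ℝ p (Fi G H b) := hp.contDiffAt.analyticAt
    exact h2.comp (Fi_analytic hGH b hb)
  have h3 := h1.eqOn_zero_of_preconnected_of_eventuallyEq_zero (Om_convex G H).isPreconnected hb0 h
  intro S hS
  have h4 := h3 (prj_mem hS)
  simpa [Fi_prj hS] using h4

end Pool.Agent.Q192.DM
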