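import Pool.Agent.Q192.DM.Lin

namespace Pool.Agent.Q192.DM
open Matrix Topology Polynomial

variable {n : ℕ}

theorem entry_le {S : Mat n} (hS : (Matrix.of S).PosSemidef) (hd : ∀ i, S i i = 1) (i j : Fin n) :
    |S i j| ≤ 1 := by
  have hsym : S j i = S i j := by
    have := hS.isHermitian.apply i j
    simpa using this
  have key : ∀ c : ℝ, c ^ 2 = 1 → 0 ≤ 2 + 2 * c * S i j := by
    intro c hc
    have h := hS.dotProduct_mulVec_nonneg (Pi.single i 1 + Pi.single j c)
    have h2 : star (Pi.single i (1:ℝ) + Pi.single j c : Fin n → ℝ) ⬝ᵥ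
        ((Matrix.of S) *ᵥ (Pi.single i 1 + Pi.single j c)) =
        S i i + c * S i j + c * S j i + c ^ 2 * S j j := by
      rw [star_trivial, Matrix.mulVec_add, add_dotProduct, dotProduct_add, dotProduct_add,
        single_dotProduct, single_dotProduct, single_dotProduct, single_dotProduct,
        Matrix.mulVec_single, Matrix.mulVec_single]
      simp
      ring
    rw [h2, hd i, hd j, hsym, hc] at h
    linarith
  have h1 := key 1 (by norm_num)
  have h2 := key (-1) (by norm_num)
  rw [abs_le]
  constructor <;> linarith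

theorem completion (G : SimpleGraph (Fin n)) (S0 : Mat n) (h0 : (Matrix.of S0).PosDef)
    (hd : ∀ i, S0 i i = 1) :
    ∃ S : Mat n, (Matrix.of S).PosDef ∧ (∀ i, S i i = 1) ∧
      (∀ i j, G.Adj i j → S i j = S0 i j) ∧
      (∀ i j, i ≠ j → ¬ G.Adj i j → (Matrix.of S)⁻¹ i j = 0) := by
  classical
  set K : Set (Mat n) := {S | (Matrix.of S).PosSemidef ∧ (∀ i, S i i = 1) ∧
    ∀ i j, G.Adj i j → S i j = S0 i j} with hK
  have hcl : IsClosed K := by
    have : K = {S : Mat n | (Matrix.of S).PosSemidef} ∩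
        ({S : Mat n | ∀ i, S i i = 1} ∩ {S : Mat n | ∀ i j, G.Adj i j → S i j = S0 i j}) := by
      ext S
      simp [hK]
    rw [this]
    refine psd_closed.inter (IsClosed.inter ?_ ?_)
    · simp only [Set.ofPred_forall]
      refine isClosed_iInter fun i => isClosed_eq ?_ continuous_const
      fun_prop
    · simp only [Set.ofPred_forall]
      refine isClosed_iInter fun i => isClosed_iInter fun j => isClosed_iInter fun _ =>
        isClosed_eq ?_ continuous_const
      fun_prop
  have hbd : Bornology.IsBounded K := by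
    refine (Metric.isBounded_closedBall (x := (0 : Mat n)) (r := 1)).subset ?_
    intro S hS
    rw [mem_closedBall_zero_iff, pi_norm_le_iff_of_nonneg zero_le_one]
    intro i
    rw [pi_norm_le_iff_of_nonneg zero_le_one]
    intro j
    exact entry_le hS.1 hS.2.1 i j
  have hcomp : IsCompact K := Metric.isCompact_of_isClosed_isBounded hcl hbd
  have hne : K.Nonempty := ⟨S0, h0.posSemidef, hd, fun _ _ _ => rfl⟩
  have hcont : Continuous fun S : Mat n => (Matrix.of S).det := by
    simp only [Matrix.det_apply, Matrix.of_apply]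
    fun_prop
  obtain ⟨S, hSK, hmax⟩ := hcomp.exists_isMaxOn hne hcont.continuousOn
  have hdet : 0 < (Matrix.of S).det := by
    have h1 : (Matrix.of S0).det ≤ (Matrix.of S).det := hmax ⟨h0.posSemidef, hd, fun _ _ _ => rfl⟩
    exact lt_of_lt_of_le h0.det_pos h1
  have hpd : (Matrix.of S).PosDef := hSK.1.posDef_iff_det_ne_zero.2 hdet.ne'
  refine ⟨S, hpd, hSK.2.1, hSK.2.2, ?_⟩
  intro i j hij hG
  set Em : Matrix (Fin n) (Fin n) ℝ := Matrix.single i j 1 + Matrix.single j i 1 with hE
  have hsymS : ∀ a b, S a b = S b a := by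
    intro a b
    have := hpd.isHermitian.apply b a
    simpa using this
  have hsymE : ∀ a b, Em a b = Em b a := by
    intro a b
    simp only [hE, Matrix.add_apply, Matrix.single_apply]
    rw [add_comm]
    congr 1 <;> simp only [and_comm]
  set γ : ℝ → Mat n := fun t => S + t • (fun a b => Em a b) with hγ
  have hγc : Continuous γ := by
    rw [hγ]; fun_prop
  have hγ0 : γ 0 = S := by simp [hγ]
  have hev : ∀ᶠ t in 𝓝 (0:ℝ), (Matrix.of (γ t)).PosDef := by
    have h1 := pd_open S hpd
    have h2 : Filter.Tendsto γ (𝓝 0) (𝓝 S) := by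
      have := hγc.tendsto 0
      rwa [hγ0] at this
    filter_upwards [h2.eventually h1] with t ht
    apply ht
    intro a b
    simp only [hγ, Pi.add_apply, Pi.smul_apply, smul_eq_mul]
    rw [hsymS a b, hsymE a b]
  have hof : ∀ t, Matrix.of (γ t) = Matrix.of S + t • Em := by
    intro t; rfl
  have hdetγ : ∀ t, (Matrix.of (γ t)).det =
      (Matrix.of S).det * (1 + t • ((Matrix.of S)⁻¹ * Em)).det := by
    intro t
    rw [hof, ← Matrix.det_mul, Matrix.mul_add, Matrix.mul_one, Matrix.mul_smul, ← Matrix.mul_assoc,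
      Matrix.mul_nonsing_inv _ (isUnit_iff_ne_zero.2 hdet.ne'), Matrix.one_mul]
  set M := (Matrix.of S)⁻¹ * Em with hM
  have hle : ∀ᶠ t in 𝓝 (0:ℝ), (1 + t • M).det ≤ 1 := by
    filter_upwards [hev] with t ht
    have hmem : γ t ∈ K := by
      refine ⟨ht.posSemidef, fun a => ?_, fun a b hab => ?_⟩
      · simp only [hγ, Pi.add_apply, Pi.smul_apply, smul_eq_mul, hE, Matrix.add_apply,
          Matrix.single_apply]
        rw [hSK.2.1 a, if_neg, if_neg]
        · simp
        · rintro ⟨h1, h2⟩; exact hij (h2.trans h1.symm)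
        · rintro ⟨h1, h2⟩; exact hij (h1.trans h2.symm)
      · simp only [hγ, Pi.add_apply, Pi.smul_apply, smul_eq_mul, hE, Matrix.add_apply,
          Matrix.single_apply]
        rw [hSK.2.2 a b hab, if_neg, if_neg]
        · simp
        · rintro ⟨h1, h2⟩; apply hG; rw [h1, h2]; exact hab.symm
        · rintro ⟨h1, h2⟩; apply hG; rw [h1, h2]; exact hab
    have h1 : (Matrix.of (γ t)).det ≤ (Matrix.of S).det := hmax hmem
    rw [hdetγ] at h1
    have h2 : (Matrix.of S).det * (1 + t • M).det ≤ (Matrix.of S).det * 1 := by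
      rw [mul_one]; exact h1
    exact le_of_mul_le_mul_left h2 hdet
  have hfun : (fun t : ℝ => (1 + t • M).det) = fun t =>
      1 + M.trace * t + (det (1 + (X : ℝ[X]) • M.map C)).divX.divX.eval t * t ^ 2 := by
    funext t
    exact Matrix.det_one_add_smul t M
  have hloc : IsLocalMax (fun t : ℝ => (1 + t • M).det) 0 := by
    have h0' : (fun t : ℝ => (1 + t • M).det) 0 = 1 := by simp
    show ∀ᶠ t in 𝓝 (0:ℝ), (fun t : ℝ => (1 + t • M).det) t ≤ (fun t : ℝ => (1 + t • M).det) 0
    rw [h0']
    exact hle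
  have hder : HasDerivAt (fun t : ℝ => (1 + t • M).det) M.trace 0 := by
    rw [hfun]
    set q := (det (1 + (X : ℝ[X]) • M.map C)).divX.divX
    have h1 : HasDerivAt (fun t : ℝ => 1 + M.trace * t) M.trace 0 := by
      simpa using ((hasDerivAt_id (0:ℝ)).const_mul M.trace).const_add 1
    have h2 : HasDerivAt (fun t : ℝ => q.eval t * t ^ 2) 0 0 := by
      have h3 := (q.hasDerivAt 0).fun_mul (hasDerivAt_pow 2 (0:ℝ))
      simpa using h3
    have h4 := h1.fun_add h2
    rw [add_zero] at h4
    exact h4
  have hτ : M.trace = 0 := hloc.hasDerivAt_eq_zero hder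
  have htr : M.trace = 2 * (Matrix.of S)⁻¹ i j := by
    have hsymI : (Matrix.of S)⁻¹ j i = (Matrix.of S)⁻¹ i j := by
      have := hpd.inv.isHermitian.apply i j
      simpa using this
    rw [hM, hE, Matrix.mul_add, Matrix.trace_add]
    rw [Matrix.trace_mul_single, Matrix.trace_mul_single, hsymI]
    simp only [MulOpposite.op_one, one_smul]
    ring
  rw [htr] at hτ
  linarith

end Pool.Agent.Q192.DM
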