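import Mathlib

/-!
# Double Markovian Gaussian correlation models: definitions
-/

open Topology
open scoped ContDiff

namespace Pool.Agent.Q192.DM

/-- Real `n × n` matrices, as functions of two indices (with the product topology and the sup
norm; in finite dimension all norms give the same smooth maps). -/
abbrev Mat (n : ℕ) := Fin n → Fin n → ℝ

/-- The double Markovian model `M(G, H)`: the positive definite symmetric matrices `S` with
`(S⁻¹) i j = 0` for every non-edge `ij` of `G` and `S i j = 0` for every non-edge `ij` of `H`.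
(`Matrix.PosDef` includes symmetry.) -/
def model {n : ℕ} (G H : SimpleGraph (Fin n)) : Set (Mat n) :=
  {S | (Matrix.of S).PosDef ∧
    (∀ i j, i ≠ j → ¬ G.Adj i j → (Matrix.of S)⁻¹ i j = 0) ∧
    (∀ i j, i ≠ j → ¬ H.Adj i j → S i j = 0)}

/-- The double Markovian correlation model `M₁(G, H)`: the members of `M(G, H)` with unit
diagonal. -/
def corrModel {n : ℕ} (G H : SimpleGraph (Fin n)) : Set (Mat n) :=
  {S | S ∈ model G H ∧ ∀ i, S i i = 1}

section General

variable {E : Type*} [NormedAddCommGroup E] [NormedSpace ℝ E]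

/-- `S` contains a smooth (immersed) piece of dimension `k`: the image of a nonempty open subset
of `ℝ^k` under a smooth map with injective derivative. -/
def HasPiece (S : Set E) (k : ℕ) : Prop :=
  ∃ (U : Set (Fin k → ℝ)) (φ : (Fin k → ℝ) → E), IsOpen U ∧ U.Nonempty ∧ ContDiffOn ℝ ∞ φ U ∧
    (∀ x ∈ U, Function.Injective (fderiv ℝ φ x)) ∧ φ '' U ⊆ S

/-- The dimension of a (semialgebraic) subset of a finite dimensional real space: the largest
dimension of a smooth piece contained in it. -/
noncomputable def dimension (S : Set E) : ℕ := sSup {k | HasPiece S k}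

/-- `S` is a smooth embedded submanifold near its point `x`: near `x` it is the zero set of a
smooth map to some `ℝ^c` with surjective derivative at `x`. -/
def SmoothAt (S : Set E) (x : E) : Prop :=
  ∃ (c : ℕ) (f : E → (Fin c → ℝ)), ContDiffAt ℝ ∞ f x ∧ Function.Surjective (fderiv ℝ f x) ∧
    ∀ᶠ y in 𝓝 x, (y ∈ S ↔ f y = 0)

/-- `S` is a smooth embedded submanifold (no singular points). -/
def IsSmoothSubmanifold (S : Set E) : Prop := ∀ x ∈ S, SmoothAt S x

end General

/-- Zariski closed subsets of the affine space of real symmetric `n × n` matrices. -/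
def ZClosed {n : ℕ} (T : Set (Mat n)) : Prop :=
  ∃ P : Set (MvPolynomial (Fin n × Fin n) ℝ),
    T = {S | (∀ i j, S i j = S j i) ∧ ∀ p ∈ P, MvPolynomial.eval (fun q => S q.1 q.2) p = 0}

/-- The Zariski closure in the affine space of real symmetric `n × n` matrices. -/
def zClosure {n : ℕ} (S : Set (Mat n)) : Set (Mat n) := ⋂₀ {T | ZClosed T ∧ S ⊆ T}

/-- Irreducibility of a Zariski closed set: it is nonempty and not the union of two proper
Zariski closed subsets. -/
def ZIrreducible {n : ℕ} (T : Set (Mat n)) : Prop :=
  T.Nonempty ∧ ∀ T₁ T₂, ZClosed T₁ → ZClosed T₂ → T = T₁ ∪ T₂ → T = T₁ ∨ T = T₂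

end Pool.Agent.Q192.DM
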