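import Pool.Agent.Q192.DM.Main

namespace Pool.Agent.Q192.DM
open Matrix Topology
open scoped ContDiff

variable {n : ℕ}

/-- edge direction -/
def Ed (i j : Fin n) : Matrix (Fin n) (Fin n) ℝ := Matrix.single i j 1 + Matrix.single j i 1

theorem Ed_sq {i j : Fin n} (hij : i ≠ j) :
    Ed i j * Ed i j = Matrix.single i i 1 + Matrix.single j j 1 := by
  unfold Ed
  rw [Matrix.add_mul, Matrix.mul_add, Matrix.mul_add, Matrix.single_mul_single_of_ne (h := hij.symm),
    Matrix.single_mul_single_same, Matrix.single_mul_single_same,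
    Matrix.single_mul_single_of_ne (h := hij)]
  simp

theorem Ed_cube {i j : Fin n} (hij : i ≠ j) :
    Ed i j * (Matrix.single i i 1 + Matrix.single j j 1) = Ed i j := by
  unfold Ed
  rw [Matrix.add_mul, Matrix.mul_add, Matrix.mul_add, Matrix.single_mul_single_of_ne (h := hij.symm),
    Matrix.single_mul_single_same, Matrix.single_mul_single_same,
    Matrix.single_mul_single_of_ne (h := hij)]
  simp

theorem Ed_inv {i j : Fin n} (hij : i ≠ j) {t : ℝ} (ht : 1 - t ^ 2 ≠ 0) :
    (1 + t • Ed i j)⁻¹ = 1 - (t / (1 - t ^ 2)) • Ed i j +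
      (t ^ 2 / (1 - t ^ 2)) • (Matrix.single i i 1 + Matrix.single j j 1) := by
  apply Matrix.inv_eq_right_inv
  set J := Ed i j with hJ
  set P : Matrix (Fin n) (Fin n) ℝ := Matrix.single i i 1 + Matrix.single j j 1 with hP
  have h1 : J * J = P := Ed_sq hij
  have h2 : J * P = J := Ed_cube hij
  set s := t / (1 - t ^ 2) with hs
  set u := t ^ 2 / (1 - t ^ 2) with hu
  have e1 : u = t * s := by rw [hs, hu]; field_simp
  have e2 : t - s + t * u = 0 := by
    rw [hs, hu]; field_simp; ring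
  have e3 : (1 + t • J) * (1 - s • J + u • P) = 1 + (t - s + t * u) • J + (u - t * s) • P := by
    rw [Matrix.add_mul, Matrix.one_mul, Matrix.smul_mul, Matrix.mul_add, Matrix.mul_sub,
      Matrix.mul_one, Matrix.mul_smul, Matrix.mul_smul, h1, h2]
    module
  rw [e3, e2, e1]
  simp

theorem Ed_apply_ne {i j k l : Fin n} (h1 : ¬ (i = k ∧ j = l)) (h2 : ¬ (j = k ∧ i = l)) :
    Ed i j k l = 0 := by
  unfold Ed
  rw [Matrix.add_apply, Matrix.single_apply, Matrix.single_apply, if_neg h1, if_neg h2, add_zero]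

theorem Ed_symm (i j k l : Fin n) : Ed i j k l = Ed i j l k := by
  unfold Ed
  rw [Matrix.add_apply, Matrix.add_apply, Matrix.single_apply, Matrix.single_apply,
    Matrix.single_apply, Matrix.single_apply, add_comm]
  congr 1 <;> simp only [and_comm]

/-- the edge curve stays in the model -/
theorem curve_mem (G H : SimpleGraph (Fin n)) {i j : Fin n} (hG : G.Adj i j) (hH : H.Adj i j) :
    ∀ᶠ t in 𝓝 (0:ℝ), (Id + t • (fun a b => Ed i j a b) : Mat n) ∈ corrModel G H := by
  have hij : i ≠ j := hG.ne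
  set γ : ℝ → Mat n := fun t => Id + t • (fun a b => Ed i j a b) with hγ
  have hγc : Continuous γ := by rw [hγ]; fun_prop
  have hγ0 : γ 0 = Id := by simp [hγ]
  have hof : ∀ t, Matrix.of (γ t) = 1 + t • Ed i j := fun t => rfl
  have hpd0 : (Matrix.of (Id : Mat n)).PosDef := by rw [of_Id]; exact Matrix.PosDef.one
  have h1 : ∀ᶠ t in 𝓝 (0:ℝ), (Matrix.of (γ t)).PosDef := by
    have h2 : Filter.Tendsto γ (𝓝 0) (𝓝 Id) := by
      have := hγc.tendsto 0
      rwa [hγ0] at this
    filter_upwards [h2.eventually (pd_open Id hpd0)] with t ht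
    apply ht
    intro a b
    show (1 : Matrix (Fin n) (Fin n) ℝ) a b + t * Ed i j a b =
      (1 : Matrix (Fin n) (Fin n) ℝ) b a + t * Ed i j b a
    rw [Ed_symm, Matrix.one_apply, Matrix.one_apply]
    simp only [eq_comm]
  have h3 : ∀ᶠ t in 𝓝 (0:ℝ), 1 - t ^ 2 ≠ 0 := by
    have : ContinuousAt (fun t : ℝ => 1 - t ^ 2) 0 := by fun_prop
    apply this.eventually_ne
    norm_num
  filter_upwards [h1, h3] with t ht1 ht3
  refine ⟨⟨ht1, ?_, ?_⟩, ?_⟩
  · intro k l hkl hg
    show (Matrix.of (γ t))⁻¹ k l = 0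
    rw [hof, Ed_inv hij ht3]
    have n1 : ¬ (i = k ∧ j = l) := by rintro ⟨rfl, rfl⟩; exact hg hG
    have n2 : ¬ (j = k ∧ i = l) := by rintro ⟨rfl, rfl⟩; exact hg hG.symm
    have n3 : ¬ (i = k ∧ i = l) := by rintro ⟨rfl, rfl⟩; exact hkl rfl
    have n4 : ¬ (j = k ∧ j = l) := by rintro ⟨rfl, rfl⟩; exact hkl rfl
    simp only [Matrix.add_apply, Matrix.sub_apply, Matrix.smul_apply, Ed_apply_ne n1 n2,
      Matrix.one_apply_ne hkl, Matrix.single_apply, if_neg n3, if_neg n4]
    simp
  · intro k l hkl hh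
    show (1 : Matrix (Fin n) (Fin n) ℝ) k l + t * Ed i j k l = 0
    have n1 : ¬ (i = k ∧ j = l) := by rintro ⟨rfl, rfl⟩; exact hh hH
    have n2 : ¬ (j = k ∧ i = l) := by rintro ⟨rfl, rfl⟩; exact hh hH.symm
    rw [Ed_apply_ne n1 n2, Matrix.one_apply_ne hkl]; ring
  · intro k
    show (1 : Matrix (Fin n) (Fin n) ℝ) k k + t * Ed i j k k = 1
    have n1 : ¬ (i = k ∧ j = k) := by rintro ⟨rfl, h⟩; exact hij h.symm
    have n2 : ¬ (j = k ∧ i = k) := by rintro ⟨rfl, h⟩; exact hij h
    rw [Ed_apply_ne n1 n2, Matrix.one_apply_eq]; ring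

theorem smooth_id_big (G H : SimpleGraph (Fin n)) (h : SmoothAt (corrModel G H) Id) :
    corrModel G H = corrModel G (Hb G H) := by
  classical
  obtain ⟨c, f, hf, hfs, hev⟩ := h
  set P := prj G (Hb G H) with hP
  have hfd : HasFDerivAt f (fderiv ℝ f Id) Id := (hf.differentiableAt (by simp)).hasFDerivAt
  -- tangent directions
  have hHb : ∀ {i j}, G.Adj i j → (Hb G H).Adj i j → H.Adj i j := by
    intro i j hg hh
    simp only [Hb, SimpleGraph.sup_adj, SimpleGraph.compl_adj] at hh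
    rcases hh with hh | hh
    · exact hh
    · exact absurd hg hh.2
  have htan : ∀ p : Idx G (Hb G H), fderiv ℝ f Id (fun a b => Ed p.1.1 p.1.2 a b) = 0 := by
    intro p
    set γ : ℝ → Mat n := fun t => Id + t • (fun a b => Ed p.1.1 p.1.2 a b) with hγ
    have hγ0 : γ 0 = Id := by simp [hγ]
    have hγd : HasDerivAt γ (fun a b => Ed p.1.1 p.1.2 a b) 0 := by
      have h0 := ((hasDerivAt_id (0:ℝ)).smul_const
        (fun a b => Ed p.1.1 p.1.2 a b : Mat n)).const_add Id
      rw [one_smul] at h0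
      exact h0
    have hc : Filter.Tendsto γ (𝓝 0) (𝓝 Id) := by
      have := hγd.continuousAt.tendsto
      rwa [hγ0] at this
    have h1 : ∀ᶠ t in 𝓝 (0:ℝ), (f ∘ γ) t = 0 := by
      filter_upwards [hc.eventually hev, curve_mem G H p.2.2.1 (hHb p.2.2.1 p.2.2.2)] with t ht1 ht2
      exact ht1.1 ht2
    have h2 : HasDerivAt (f ∘ γ) (fderiv ℝ f Id (fun a b => Ed p.1.1 p.1.2 a b)) 0 := by
      have h3 : HasFDerivAt f (fderiv ℝ f Id) (γ 0) := by rw [hγ0]; exact hfd
      exact HasFDerivAt.comp_hasDerivAt (0:ℝ) (f := γ) h3 hγd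
    have h4 : HasDerivAt (f ∘ γ) 0 0 :=
      (hasDerivAt_const (0:ℝ) (0 : Fin c → ℝ)).congr_of_eventuallyEq h1
    exact h2.unique h4
  -- the combined map
  let PL : Mat n →L[ℝ] (Idx G (Hb G H) → ℝ) :=
    ContinuousLinearMap.pi fun p =>
      (ContinuousLinearMap.proj p.1.2).comp
        (ContinuousLinearMap.proj (R := ℝ) (φ := fun _ : Fin n => Fin n → ℝ) p.1.1)
  have hPL : ∀ M, PL M = P M := fun M => rfl
  have hstrict : HasStrictFDerivAt (fun M => (f M, PL M)) ((fderiv ℝ f Id).prod PL) Id :=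
    (hf.hasStrictFDerivAt (by simp)).prodMk PL.hasStrictFDerivAt
  have hsurj : Function.Surjective ((fderiv ℝ f Id).prod PL) := by
    rintro ⟨a, b⟩
    obtain ⟨X, hX⟩ := hfs a
    set Y : Mat n := X + ∑ p : Idx G (Hb G H), (b p - PL X p) •
      (fun k l => Ed p.1.1 p.1.2 k l : Mat n) with hY
    refine ⟨Y, ?_⟩
    have h1 : fderiv ℝ f Id Y = a := by
      rw [hY, map_add, map_sum, hX]
      rw [Finset.sum_eq_zero, add_zero]
      intro p _
      rw [map_smul, htan p, smul_zero]
    have h2 : PL Y = b := by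
      rw [hY, map_add, map_sum]
      funext q
      simp only [Pi.add_apply, Finset.sum_apply, map_smul, Pi.smul_apply, smul_eq_mul]
      rw [Finset.sum_eq_single q]
      · have : PL (fun k l => Ed q.1.1 q.1.2 k l : Mat n) q = 1 := by
          show Ed q.1.1 q.1.2 q.1.1 q.1.2 = 1
          unfold Ed
          rw [Matrix.add_apply, Matrix.single_apply, Matrix.single_apply, if_pos ⟨rfl, rfl⟩,
            if_neg (fun h => q.2.1.ne h.2), add_zero]
        rw [this]; ring
      · intro p _ hpq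
        have : PL (fun k l => Ed p.1.1 p.1.2 k l : Mat n) q = 0 := by
          show Ed p.1.1 p.1.2 q.1.1 q.1.2 = 0
          apply Ed_apply_ne
          · rintro ⟨h1, h2⟩
            exact hpq (Subtype.ext (Prod.ext h1 h2))
          · rintro ⟨h1, h2⟩
            have a1 := p.2.1
            have a2 := q.2.1
            rw [← h1, ← h2] at a2
            exact absurd a1 a2.not_gt
        rw [this, mul_zero]
      · intro h; exact absurd (Finset.mem_univ q) h
    show (fderiv ℝ f Id Y, PL Y) = (a, b)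
    rw [h1, h2]
  have hmap := hstrict.map_nhds_eq_of_surj (LinearMap.range_eq_top.2 hsurj)
  have hf0 : f Id = 0 := hev.self_of_nhds.1 (Id_mem G H)
  have hnb : (fun M => (f M, PL M)) '' {M | M ∈ corrModel G H ↔ f M = 0} ∈
      𝓝 ((0 : Fin c → ℝ), PL Id) := by
    have h1 : (fun M => (f M, PL M)) '' {M | M ∈ corrModel G H ↔ f M = 0} ∈
        Filter.map (fun M => (f M, PL M)) (𝓝 (Id : Mat n)) := Filter.image_mem_map hev
    rw [hmap, hf0] at h1
    exact h1
  have hcont : Filter.Tendsto (fun b : Idx G (Hb G H) → ℝ => ((0 : Fin c → ℝ), b)) (𝓝 (PL Id))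
      (𝓝 ((0 : Fin c → ℝ), PL Id)) := by
    have : Continuous fun b : Idx G (Hb G H) → ℝ => ((0 : Fin c → ℝ), b) := by fun_prop
    exact this.tendsto _
  refine eq_big G H (b0 := PL Id) (prj_mem (Id_mem G (Hb G H))) ?_
  filter_upwards [hcont hnb] with b hb
  obtain ⟨M, hM, hMb⟩ := hb
  have h1 : f M = 0 := congrArg Prod.fst hMb
  have h2 : PL M = b := congrArg Prod.snd hMb
  have h3 : M ∈ corrModel G H := hM.2 h1
  have h4 : Fi G (Hb G H) b = M := by
    rw [← h2]
    exact Fi_prj (sub_big G H h3)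
  rw [h4]
  exact h3

/-! ### irreducibility -/

/-- evaluation -/
noncomputable def evp (p : MvPolynomial (Fin n × Fin n) ℝ) (S : Mat n) : ℝ :=
  MvPolynomial.eval (fun q => S q.1 q.2) p

theorem eval_contDiff (p : MvPolynomial (Fin n × Fin n) ℝ) : ContDiff ℝ ω (evp p) := by
  unfold evp
  induction p using MvPolynomial.induction_on with
  | C a => simp only [MvPolynomial.eval_C]; exact contDiff_const
  | add p q hp hq => simp only [map_add]; exact hp.add hq
  | mul_X p i hp =>
    simp only [map_mul, MvPolynomial.eval_X]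
    refine hp.mul ?_
    fun_prop

theorem irr_big {G H : SimpleGraph (Fin n)} (hGH : ∀ i j, i ≠ j → G.Adj i j ∨ H.Adj i j) :
    ZIrreducible (zClosure (corrModel G H)) := by
  have hsubset : corrModel G H ⊆ zClosure (corrModel G H) := Set.subset_sInter fun T hT => hT.2
  refine ⟨⟨Id, hsubset (Id_mem G H)⟩, ?_⟩
  intro T₁ T₂ hT₁ hT₂ hU
  have hcase : corrModel G H ⊆ T₁ ∨ corrModel G H ⊆ T₂ := by
    by_contra hcon
    push Not at hcon
    obtain ⟨h1, h2⟩ := hcon
    obtain ⟨S1, hS1, hS1T⟩ := Set.not_subset.1 h1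
    obtain ⟨S2, hS2, hS2T⟩ := Set.not_subset.1 h2
    obtain ⟨P₁, hP₁⟩ := hT₁
    obtain ⟨P₂, hP₂⟩ := hT₂
    have e1 : ∃ p ∈ P₁, MvPolynomial.eval (fun q => S1 q.1 q.2) p ≠ 0 := by
      by_contra hc
      push Not at hc
      apply hS1T
      rw [hP₁]
      exact ⟨mem_corr_sym hS1, hc⟩
    have e2 : ∃ p ∈ P₂, MvPolynomial.eval (fun q => S2 q.1 q.2) p ≠ 0 := by
      by_contra hc
      push Not at hc
      apply hS2T
      rw [hP₂]
      exact ⟨mem_corr_sym hS2, hc⟩
    obtain ⟨p, hp, hp0⟩ := e1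
    obtain ⟨r, hr, hr0⟩ := e2
    have hprod : ∀ S ∈ corrModel G H, MvPolynomial.eval (fun q => S q.1 q.2) p = 0 ∨
        MvPolynomial.eval (fun q => S q.1 q.2) r = 0 := by
      intro S hS
      have := hsubset hS
      rw [hU] at this
      rcases this with h | h
      · left; rw [hP₁] at h; exact h.2 p hp
      · right; rw [hP₂] at h; exact h.2 r hr
    apply hr0
    refine ident hGH (eval_contDiff r) (prj_mem hS1) ?_ S2 hS2
    have hc1 : ContinuousAt (fun b => evp p (Fi G H b)) (prj G H S1) := by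
      have hA : Filter.Tendsto (Fi G H) (𝓝 (prj G H S1)) (𝓝 (Fi G H (prj G H S1))) :=
        (Fi_analytic hGH (prj G H S1) (prj_mem hS1)).continuousAt
      have hB : Filter.Tendsto (evp p) (𝓝 (Fi G H (prj G H S1)))
          (𝓝 (evp p (Fi G H (prj G H S1)))) := (eval_contDiff p).continuous.tendsto _
      exact hB.comp hA
    have hne : ∀ᶠ b in 𝓝 (prj G H S1), evp p (Fi G H b) ≠ 0 := by
      apply hc1.eventually_ne
      rw [Fi_prj hS1]
      exact hp0
    filter_upwards [hne, (Om_open hGH).mem_nhds (prj_mem hS1)] with b hb hbO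
    have hmem := (Fi_spec (exists_of_Om hGH hbO)).1
    exact (hprod _ hmem).resolve_left hb
  rcases hcase with h | h
  · left
    refine Set.Subset.antisymm (Set.sInter_subset_of_mem ⟨hT₁, h⟩) ?_
    rw [hU]; exact Set.subset_union_left
  · right
    refine Set.Subset.antisymm (Set.sInter_subset_of_mem ⟨hT₂, h⟩) ?_
    rw [hU]; exact Set.subset_union_right

theorem q1 (G H : SimpleGraph (Fin n))
    (h : dimension (corrModel G H) = (G.edgeSet ∩ H.edgeSet).ncard) :
    IsSmoothSubmanifold (corrModel G H) := by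
  rw [dim_big G H h]
  exact smooth_big (hb_cover G H)

theorem q2 (G H : SimpleGraph (Fin n)) (h : IsSmoothSubmanifold (corrModel G H)) :
    ZIrreducible (zClosure (corrModel G H)) := by
  rw [smooth_id_big G H (h Id (Id_mem G H))]
  exact irr_big (hb_cover G H)

end Pool.Agent.Q192.DM
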