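import Pool.Agent.Q192.DM.Defs

namespace Pool.Agent.Q192.DM
open Matrix Topology
open scoped MatrixOrder

variable {n : ℕ}

theorem eq_zero_of_conj {P L : Matrix (Fin n) (Fin n) ℝ} (hP : P.PosSemidef) (hL : L.PosDef)
    (h : (P * L).trace = 0) : P = 0 := by
  obtain ⟨B, hB⟩ := CStarAlgebra.nonneg_iff_eq_star_mul_self.mp hL.posSemidef.nonneg
  have hdet : IsUnit B := by
    have h1 := hL.isUnit
    rw [hB, Matrix.isUnit_iff_isUnit_det, Matrix.det_mul] at h1
    rw [Matrix.isUnit_iff_isUnit_det]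
    exact isUnit_of_mul_isUnit_right h1
  have h2 : (B * P * Bᴴ).PosSemidef := hP.mul_mul_conjTranspose_same B
  have h3 : (B * P * Bᴴ).trace = 0 := by
    rw [Matrix.trace_mul_comm, ← Matrix.mul_assoc, Matrix.trace_mul_comm]
    rw [hB] at h
    exact h
  have h4 := h2.trace_eq_zero_iff.1 h3
  have hdet' : IsUnit Bᴴ := by
    rw [Matrix.isUnit_iff_isUnit_det, Matrix.det_conjTranspose]
    have := (Matrix.isUnit_iff_isUnit_det _).1 hdet
    simpa using this
  have h5 : B * P = 0 := by
    have := hdet'.mul_left_eq_zero.1 h4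
    exact this
  exact hdet.mul_right_eq_zero.1 h5

theorem eq_zero_of_trace {X K L : Matrix (Fin n) (Fin n) ℝ} (hX : Xᵀ = X) (hK : K.PosDef)
    (hL : L.PosDef) (h : (X * K * X * L).trace = 0) : X = 0 := by
  have hXH : Xᴴ = X := by
    rw [Matrix.conjTranspose_eq_transpose_of_trivial]; exact hX
  have h1 : (X * K * X).PosSemidef := by
    have := hK.posSemidef.mul_mul_conjTranspose_same X
    rwa [hXH] at this
  have h2 := eq_zero_of_conj h1 hL h
  have h3 : (K * (X * X)).trace = 0 := by
    rw [← Matrix.mul_assoc, Matrix.trace_mul_comm, ← Matrix.mul_assoc, h2]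
    simp
  have h4 : (X * X).PosSemidef := by
    have := Matrix.posSemidef_self_mul_conjTranspose X
    rwa [hXH] at this
  have h5 := eq_zero_of_conj h4 hK (by rw [Matrix.trace_mul_comm]; exact h3)
  have h6 : Xᴴ * X = 0 := by rw [hXH]; exact h5
  exact Matrix.conjTranspose_mul_self_eq_zero.1 h6

/-- quadratic form -/
theorem pd_iff (S : Mat n) (hS : ∀ i j, S i j = S j i) :
    (Matrix.of S).PosDef ↔ ∀ x ∈ Metric.sphere (0 : Fin n → ℝ) 1,
      0 < x ⬝ᵥ ((Matrix.of S) *ᵥ x) := by
  have hH : (Matrix.of S).IsHermitian := by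
    ext i j
    simp [Matrix.conjTranspose_apply, hS i j]
  rw [Matrix.posDef_iff_dotProduct_mulVec]
  constructor
  · intro h x hx
    have hx0 : x ≠ 0 := by
      rintro rfl
      simp at hx
    simpa using h.2 hx0
  · intro h
    refine ⟨hH, fun x hx => ?_⟩
    have hn : 0 < ‖x‖ := norm_pos_iff.2 hx
    have h1 : ‖x‖⁻¹ • x ∈ Metric.sphere (0 : Fin n → ℝ) 1 := by
      rw [mem_sphere_zero_iff_norm, norm_smul, norm_inv, norm_norm, inv_mul_cancel₀ hn.ne']
    have h2 := h _ h1
    rw [Matrix.mulVec_smul, dotProduct_smul, smul_dotProduct] at h2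
    have h3 : 0 < ‖x‖⁻¹ := by positivity
    have h4 : 0 < x ⬝ᵥ ((Matrix.of S) *ᵥ x) := by
      simp only [smul_eq_mul] at h2
      have := (mul_pos_iff_of_pos_left h3).1 h2
      exact (mul_pos_iff_of_pos_left h3).1 this
    simpa using h4

theorem q_cont : Continuous fun p : Mat n × (Fin n → ℝ) => p.2 ⬝ᵥ ((Matrix.of p.1) *ᵥ p.2) := by
  unfold dotProduct Matrix.mulVec dotProduct
  simp only [Matrix.of_apply]
  fun_prop

theorem pd_open (S : Mat n) (hS : (Matrix.of S).PosDef) :
    ∀ᶠ T : Mat n in 𝓝 S, (∀ i j, T i j = T j i) → (Matrix.of T).PosDef := by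
  have hsym : ∀ i j, S i j = S j i := by
    intro i j
    have := hS.isHermitian.apply j i
    simpa using this
  have h1 : ∀ᶠ T : Mat n in 𝓝 S, ∀ x ∈ Metric.sphere (0 : Fin n → ℝ) 1,
      0 < x ⬝ᵥ ((Matrix.of T) *ᵥ x) := by
    refine (isCompact_sphere (0 : Fin n → ℝ) 1).eventually_forall_of_forall_eventually
      (P := fun T x => 0 < x ⬝ᵥ ((Matrix.of T) *ᵥ x)) ?_
    intro x hx
    exact (q_cont.continuousAt (x := (S, x))).eventually_const_lt ((pd_iff S hsym).1 hS x hx)
  filter_upwards [h1] with T hT hs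
  exact (pd_iff T hs).2 hT

theorem psd_closed : IsClosed {S : Mat n | (Matrix.of S).PosSemidef} := by
  have : {S : Mat n | (Matrix.of S).PosSemidef} =
      {S : Mat n | ∀ i j, S i j = S j i} ∩
        ⋂ x : Fin n → ℝ, {S : Mat n | 0 ≤ x ⬝ᵥ ((Matrix.of S) *ᵥ x)} := by
    ext S
    simp only [Set.mem_inter_iff, Set.mem_iInter, Set.mem_ofPred_eq]
    rw [Matrix.posSemidef_iff_dotProduct_mulVec]
    constructor
    · intro h
      refine ⟨fun i j => ?_, fun x => ?_⟩
      · have := h.1.apply j i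
        simpa using this
      · simpa using h.2 x
    · intro h
      refine ⟨?_, fun x => ?_⟩
      · ext i j
        simp [Matrix.conjTranspose_apply, h.1 i j]
      · simpa using h.2 x
  rw [this]
  refine IsClosed.inter ?_ (isClosed_iInter fun x => ?_)
  · simp only [Set.ofPred_forall]
    refine isClosed_iInter fun i => isClosed_iInter fun j => isClosed_eq ?_ ?_ <;> fun_prop
  · refine isClosed_le continuous_const ?_
    exact q_cont.comp (Continuous.prodMk continuous_id continuous_const)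

end Pool.Agent.Q192.DM
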