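import Pool.Agent.Q192.DM.Chart

namespace Pool.Agent.Q192.DM
open Matrix Topology
open scoped ContDiff

variable {n : ℕ}

/-- the enlarged second graph -/
abbrev Hb (G H : SimpleGraph (Fin n)) : SimpleGraph (Fin n) := H ⊔ Gᶜ

theorem hb_cover (G H : SimpleGraph (Fin n)) (i j : Fin n) (hij : i ≠ j) :
    G.Adj i j ∨ (Hb G H).Adj i j := by
  by_cases h : G.Adj i j
  · exact Or.inl h
  · right
    simp only [Hb, SimpleGraph.sup_adj, SimpleGraph.compl_adj]
    exact Or.inr ⟨hij, h⟩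

theorem sub_big (G H : SimpleGraph (Fin n)) : corrModel G H ⊆ corrModel G (Hb G H) := by
  intro S hS
  refine ⟨⟨hS.1.1, hS.1.2.1, fun i j hij h => hS.1.2.2 i j hij fun h' => h ?_⟩, hS.2⟩
  simp only [Hb, SimpleGraph.sup_adj]
  exact Or.inl h'

theorem eq_big (G H : SimpleGraph (Fin n)) {b0 : Idx G (Hb G H) → ℝ} (hb0 : b0 ∈ Om G (Hb G H))
    (h : ∀ᶠ b in 𝓝 b0, Fi G (Hb G H) b ∈ corrModel G H) :
    corrModel G H = corrModel G (Hb G H) := by
  refine Set.Subset.antisymm (sub_big G H) ?_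
  intro S hS
  refine ⟨⟨hS.1.1, hS.1.2.1, fun i j hij hh => ?_⟩, hS.2⟩
  by_cases hG : G.Adj i j
  · refine hS.1.2.2 i j hij fun h' => ?_
    simp only [Hb, SimpleGraph.sup_adj, SimpleGraph.compl_adj] at h'
    rcases h' with h' | h'
    · exact hh h'
    · exact h'.2 hG
  · have hp : ContDiff ℝ ω (fun M : Mat n => M i j) := by fun_prop
    refine ident (hb_cover G H) hp hb0 ?_ S hS
    filter_upwards [h] with b hb
    exact hb.1.2.2 i j hij hh

/-! ### counting -/

theorem card_idx (G H : SimpleGraph (Fin n)) :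
    Fintype.card (Idx G (Hb G H)) = (G.edgeSet ∩ H.edgeSet).ncard := by
  classical
  have h1 : (G.edgeSet ∩ H.edgeSet).ncard = Nat.card (Idx G (Hb G H)) := by
    rw [← Nat.card_coe_set_eq]
    symm
    refine Nat.card_congr (Equiv.ofBijective
      (fun p : Idx G (Hb G H) => (⟨s(p.1.1, p.1.2), ?_⟩ : ↥(G.edgeSet ∩ H.edgeSet))) ⟨?_, ?_⟩)
    · refine ⟨p.2.2.1, ?_⟩
      have h := p.2.2.2
      simp only [Hb, SimpleGraph.sup_adj, SimpleGraph.compl_adj] at h
      rcases h with h | h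
      · exact h
      · exact absurd p.2.2.1 h.2
    · intro p q hpq
      have h := congrArg Subtype.val hpq
      simp only [Sym2.eq_iff] at h
      rcases h with h | h
      · exact Subtype.ext (Prod.ext h.1 h.2)
      · have h1 := p.2.1
        have h2 := q.2.1
        rw [h.1, h.2] at h1
        exact absurd h1 h2.not_gt
    · rintro ⟨e, he⟩
      induction e using Sym2.ind with
      | _ a b =>
        have hG : G.Adj a b := he.1
        have hH : H.Adj a b := he.2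
        rcases lt_or_gt_of_ne hG.ne with hab | hab
        · refine ⟨⟨(a, b), hab, hG, ?_⟩, ?_⟩
          · simp only [Hb, SimpleGraph.sup_adj]; exact Or.inl hH
          · rfl
        · refine ⟨⟨(b, a), hab, hG.symm, ?_⟩, ?_⟩
          · simp only [Hb, SimpleGraph.sup_adj]; exact Or.inl hH.symm
          · exact Subtype.ext (Sym2.eq_swap)
  rw [h1, Nat.card_eq_fintype_card]

/-! ### the identity matrix -/

/-- the identity matrix -/
def Id : Mat n := fun i j => (1 : Matrix (Fin n) (Fin n) ℝ) i j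

theorem of_Id : Matrix.of (Id : Mat n) = 1 := rfl

theorem Id_mem (G H : SimpleGraph (Fin n)) : (Id : Mat n) ∈ corrModel G H := by
  refine ⟨⟨?_, ?_, ?_⟩, ?_⟩
  · rw [of_Id]; exact Matrix.PosDef.one
  · intro i j hij _
    rw [of_Id, inv_one, Matrix.one_apply_ne hij]
  · intro i j hij _
    exact Matrix.one_apply_ne hij
  · intro i
    exact Matrix.one_apply_eq i

theorem prj_contDiff (G H : SimpleGraph (Fin n)) : ContDiff ℝ ω (prj G H) := by
  rw [contDiff_pi]
  intro p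
  unfold prj
  fun_prop

/-! ### a piece of maximal dimension -/

theorem piece_big (G H : SimpleGraph (Fin n)) {D : ℕ} (hD : D = (G.edgeSet ∩ H.edgeSet).ncard)
    (h : HasPiece (corrModel G H) D) :
    corrModel G H = corrModel G (Hb G H) := by
  obtain ⟨U, φ, hU, ⟨x0, hx0⟩, hφ, hinj, hsub⟩ := h
  have hφ0 : ContDiffAt ℝ ∞ φ x0 := hφ.contDiffAt (hU.mem_nhds hx0)
  have hφd : HasFDerivAt φ (fderiv ℝ φ x0) x0 :=
    (hφ0.differentiableAt (by simp)).hasFDerivAt
  have hmem : ∀ x ∈ U, φ x ∈ corrModel G (Hb G H) := fun x hx =>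
    sub_big G H (hsub ⟨x, hx, rfl⟩)
  have hpd := (hmem x0 hx0).1.1
  set P := prj G (Hb G H) with hP
  have hψ0 : ContDiffAt ℝ ∞ (P ∘ φ) x0 :=
    ((prj_contDiff G (Hb G H)).of_le le_top).contDiffAt.comp x0 hφ0
  have hψd : HasFDerivAt (P ∘ φ) (fderiv ℝ (P ∘ φ) x0) x0 :=
    (hψ0.differentiableAt (by simp)).hasFDerivAt
  have hPhi : HasFDerivAt (Phi G) (fderiv ℝ (Phi G) (φ x0)) (φ x0) :=
    ((contDiffAt_Phi G _ hpd.det_pos.ne').differentiableAt (by simp)).hasFDerivAt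
  have h1 : HasFDerivAt (Phi G ∘ φ) ((fderiv ℝ (Phi G) (φ x0)).comp (fderiv ℝ φ x0)) x0 :=
    hPhi.comp x0 hφd
  have hE : HasFDerivAt (ext0 G (Hb G H)) (fderiv ℝ (ext0 G (Hb G H)) ((P ∘ φ) x0))
      ((P ∘ φ) x0) :=
    (((ext0_contDiff G (Hb G H)).differentiable (by simp)) _).hasFDerivAt
  have h2 : HasFDerivAt (ext0 G (Hb G H) ∘ (P ∘ φ))
      ((fderiv ℝ (ext0 G (Hb G H)) ((P ∘ φ) x0)).comp (fderiv ℝ (P ∘ φ) x0)) x0 :=
    hE.comp x0 hψd
  have hev : (Phi G ∘ φ) =ᶠ[𝓝 x0] (ext0 G (Hb G H) ∘ (P ∘ φ)) := by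
    filter_upwards [hU.mem_nhds hx0] with x hx
    exact phi_eq_ext (mem_zr (hmem x hx))
  have h3 := h1.unique (h2.congr_of_eventuallyEq hev)
  have hinj2 : Function.Injective (fderiv ℝ (P ∘ φ) x0) := by
    rw [injective_iff_map_eq_zero]
    intro v hv
    have h4 : (fderiv ℝ (Phi G) (φ x0)) (fderiv ℝ φ x0 v) = 0 := by
      have := congrArg (fun L : (Fin D → ℝ) →L[ℝ] Mat n => L v) h3
      simp only [ContinuousLinearMap.comp_apply] at this
      rw [this, hv, map_zero]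
    have h5 : fderiv ℝ φ x0 v = 0 := by
      apply fderiv_Phi_inj G (φ x0) hpd
      rw [h4, map_zero]
    apply hinj x0 hx0
    rw [h5, map_zero]
  have hcard : Module.finrank ℝ (Fin D → ℝ) = Module.finrank ℝ (Idx G (Hb G H) → ℝ) := by
    rw [Module.finrank_fin_fun, Module.finrank_fintype_fun_eq_card, card_idx, hD]
  have hsurj : Function.Surjective (fderiv ℝ (P ∘ φ) x0) :=
    (LinearMap.injective_iff_surjective_of_finrank_eq_finrank (f := (fderiv ℝ (P ∘ φ) x0 :
      (Fin D → ℝ) →ₗ[ℝ] (Idx G (Hb G H) → ℝ))) hcard).1 hinj2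
  have hstrict : HasStrictFDerivAt (P ∘ φ) (fderiv ℝ (P ∘ φ) x0) x0 :=
    hψ0.hasStrictFDerivAt (by simp)
  have hmap : Filter.map (P ∘ φ) (𝓝 x0) = 𝓝 ((P ∘ φ) x0) :=
    hstrict.map_nhds_eq_of_surj (LinearMap.range_eq_top.2 hsurj)
  have hnb : (P ∘ φ) '' U ∈ 𝓝 ((P ∘ φ) x0) := by
    rw [← hmap]
    exact Filter.image_mem_map (hU.mem_nhds hx0)
  refine eq_big G H (b0 := (P ∘ φ) x0) (prj_mem (hmem x0 hx0)) ?_
  filter_upwards [hnb] with b hb
  obtain ⟨x, hx, rfl⟩ := hb
  show Fi G (Hb G H) (prj G (Hb G H) (φ x)) ∈ _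
  rw [Fi_prj (hmem x hx)]
  exact hsub ⟨x, hx, rfl⟩

theorem hasPiece_zero (G H : SimpleGraph (Fin n)) : HasPiece (corrModel G H) 0 := by
  refine ⟨Set.univ, fun _ => Id, isOpen_univ, Set.univ_nonempty, contDiffOn_const, ?_, ?_⟩
  · intro x _ v w _
    exact Subsingleton.elim _ _
  · rintro _ ⟨_, _, rfl⟩
    exact Id_mem G H

theorem hasPiece_bdd {S : Set (Mat n)} : BddAbove {k | HasPiece S k} := by
  refine ⟨Module.finrank ℝ (Mat n), ?_⟩
  rintro k ⟨U, φ, _, ⟨x, hx⟩, _, hinj, _⟩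
  have h := LinearMap.finrank_le_finrank_of_injective
    (f := (fderiv ℝ φ x : (Fin k → ℝ) →ₗ[ℝ] Mat n)) (hinj x hx)
  rwa [Module.finrank_fin_fun] at h

theorem dim_big (G H : SimpleGraph (Fin n))
    (h : dimension (corrModel G H) = (G.edgeSet ∩ H.edgeSet).ncard) :
    corrModel G H = corrModel G (Hb G H) := by
  refine piece_big G H h ?_
  exact Nat.sSup_mem ⟨0, hasPiece_zero G H⟩ hasPiece_bdd

/-! ### the enlarged model is smooth -/

theorem smooth_big {G H : SimpleGraph (Fin n)} (hGH : ∀ i j, i ≠ j → G.Adj i j ∨ H.Adj i j) :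
    IsSmoothSubmanifold (corrModel G H) := by
  classical
  intro S hS
  let J := {p : Fin n × Fin n // ¬ (p.1 < p.2 ∧ G.Adj p.1 p.2 ∧ H.Adj p.1 p.2)}
  let e : Fin (Fintype.card J) ≃ J := (Fintype.equivFin J).symm
  let R : Mat n →L[ℝ] (Fin (Fintype.card J) → ℝ) :=
    ContinuousLinearMap.pi fun k =>
      (ContinuousLinearMap.proj (e k).1.2).comp
        (ContinuousLinearMap.proj (R := ℝ) (φ := fun _ : Fin n => Fin n → ℝ) (e k).1.1)
  have hR : ∀ M k, R M k = M (e k).1.1 (e k).1.2 := fun M k => rfl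
  have hpd := hS.1.1
  have hc := contDiffAt_Phi G S hpd.det_pos.ne'
  have hd : HasFDerivAt (Phi G) (fderiv ℝ (Phi G) S) S := (hc.differentiableAt (by simp)).hasFDerivAt
  have hRd : HasFDerivAt (R ∘ Phi G) (R.comp (fderiv ℝ (Phi G) S)) S := R.hasFDerivAt.comp S hd
  refine ⟨Fintype.card J, R ∘ Phi G, ?_, ?_, ?_⟩
  · exact (R.contDiff.contDiffAt.comp S (hc.of_le le_top))
  · rw [hRd.fderiv]
    have hLs : Function.Surjective (fderiv ℝ (Phi G) S) :=
      (LinearMap.injective_iff_surjective (f := (fderiv ℝ (Phi G) S : Mat n →ₗ[ℝ] Mat n))).1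
        (fderiv_Phi_inj G S hpd)
    have hRs : Function.Surjective R := by
      intro y
      refine ⟨fun i j => if h : ¬ (i < j ∧ G.Adj i j ∧ H.Adj i j) then
        y (e.symm ⟨(i, j), h⟩) else 0, ?_⟩
      funext k
      rw [hR, dif_pos (e k).2]
      congr 1
      exact e.symm_apply_apply k
    exact hRs.comp hLs
  · filter_upwards [zr_mem hGH hpd] with M hM
    constructor
    · intro h
      funext k
      exact mem_zr h _ _ (e k).2
    · intro h
      apply hM
      intro i j hij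
      have h1 := congrFun h (e.symm ⟨(i, j), hij⟩)
      simp only [Function.comp, hR, Equiv.apply_symm_apply] at h1
      exact h1

end Pool.Agent.Q192.DM
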